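import Pool.Agent.Helper68.DS.Goals2

set_option autoImplicit false

/-!
# BKER: the kernel for lines in general position (MP_52cd29_ag)
-/

namespace Pool.Agent.Helper85.DS

open Pool.Agent.Helper68.DS

theorem dot_cr_left (a b : Fin 3 → ℂ) : a ⬝ᵥ cr a b = 0 := by
  simp only [cr, dotProduct, Fin.sum_univ_three, Matrix.cons_val_zero, Matrix.cons_val_one,
    Matrix.cons_val_two, Matrix.head_cons, Matrix.tail_cons]
  ring

theorem dot_cr_right (a b : Fin 3 → ℂ) : b ⬝ᵥ cr a b = 0 := by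
  simp only [cr, dotProduct, Fin.sum_univ_three, Matrix.cons_val_zero, Matrix.cons_val_one,
    Matrix.cons_val_two, Matrix.head_cons, Matrix.tail_cons]
  ring

/-- A vector orthogonal to a nonzero cross product is a combination of the two factors. -/
theorem exists_comb (a b v : Fin 3 → ℂ) (h : cr a b ≠ 0) (hv : v ⬝ᵥ cr a b = 0) :
    ∃ x y : ℂ, v = x • a + y • b := by
  have e0 : cr a b 0 = a 1 * b 2 - a 2 * b 1 := rfl
  have e1 : cr a b 1 = a 2 * b 0 - a 0 * b 2 := rfl
  have e2 : cr a b 2 = a 0 * b 1 - a 1 * b 0 := rfl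
  have hv' : v 0 * (a 1 * b 2 - a 2 * b 1) + v 1 * (a 2 * b 0 - a 0 * b 2) +
      v 2 * (a 0 * b 1 - a 1 * b 0) = 0 := by
    rw [← e0, ← e1, ← e2]
    simpa [dotProduct, Fin.sum_univ_three] using hv
  have hne : cr a b 0 ≠ 0 ∨ cr a b 1 ≠ 0 ∨ cr a b 2 ≠ 0 := by
    by_contra hcon
    push Not at hcon
    apply h
    funext i
    fin_cases i
    · exact hcon.1
    · exact hcon.2.1
    · exact hcon.2.2
  rcases hne with h0 | h0 | h0
  · rw [e0] at h0
    refine ⟨(v 1 * b 2 - v 2 * b 1) / (a 1 * b 2 - a 2 * b 1),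
      (a 1 * v 2 - a 2 * v 1) / (a 1 * b 2 - a 2 * b 1), ?_⟩
    funext i
    fin_cases i
    · simp only [Fin.zero_eta, Pi.add_apply, Pi.smul_apply, smul_eq_mul]
      rw [div_mul_eq_mul_div, div_mul_eq_mul_div, ← add_div, eq_div_iff h0]
      linear_combination hv'
    · simp only [Fin.mk_one, Pi.add_apply, Pi.smul_apply, smul_eq_mul]
      rw [div_mul_eq_mul_div, div_mul_eq_mul_div, ← add_div, eq_div_iff h0]
      ring
    · simp only [Fin.reduceFinMk, Pi.add_apply, Pi.smul_apply, smul_eq_mul]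
      rw [div_mul_eq_mul_div, div_mul_eq_mul_div, ← add_div, eq_div_iff h0]
      ring
  · rw [e1] at h0
    refine ⟨(v 2 * b 0 - v 0 * b 2) / (a 2 * b 0 - a 0 * b 2),
      (a 2 * v 0 - a 0 * v 2) / (a 2 * b 0 - a 0 * b 2), ?_⟩
    funext i
    fin_cases i
    · simp only [Fin.zero_eta, Pi.add_apply, Pi.smul_apply, smul_eq_mul]
      rw [div_mul_eq_mul_div, div_mul_eq_mul_div, ← add_div, eq_div_iff h0]
      ring
    · simp only [Fin.mk_one, Pi.add_apply, Pi.smul_apply, smul_eq_mul]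
      rw [div_mul_eq_mul_div, div_mul_eq_mul_div, ← add_div, eq_div_iff h0]
      linear_combination hv'
    · simp only [Fin.reduceFinMk, Pi.add_apply, Pi.smul_apply, smul_eq_mul]
      rw [div_mul_eq_mul_div, div_mul_eq_mul_div, ← add_div, eq_div_iff h0]
      ring
  · rw [e2] at h0
    refine ⟨(v 0 * b 1 - v 1 * b 0) / (a 0 * b 1 - a 1 * b 0),
      (a 0 * v 1 - a 1 * v 0) / (a 0 * b 1 - a 1 * b 0), ?_⟩
    funext i
    fin_cases i
    · simp only [Fin.zero_eta, Pi.add_apply, Pi.smul_apply, smul_eq_mul]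
      rw [div_mul_eq_mul_div, div_mul_eq_mul_div, ← add_div, eq_div_iff h0]
      ring
    · simp only [Fin.mk_one, Pi.add_apply, Pi.smul_apply, smul_eq_mul]
      rw [div_mul_eq_mul_div, div_mul_eq_mul_div, ← add_div, eq_div_iff h0]
      ring
    · simp only [Fin.reduceFinMk, Pi.add_apply, Pi.smul_apply, smul_eq_mul]
      rw [div_mul_eq_mul_div, div_mul_eq_mul_div, ← add_div, eq_div_iff h0]
      linear_combination hv'

/-- The linear map `(ξ, c) ↦ (ξ + c_i lam_i)_i`. -/
def phi {k : ℕ} (lam : Fin k → Fin 3 → ℂ) :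
    ((Fin 3 → ℂ) × (Fin k → ℂ)) →ₗ[ℂ] (Fin k → Fin 3 → ℂ) where
  toFun p i := p.1 + p.2 i • lam i
  map_add' p q := by
    funext i
    simp only [Prod.fst_add, Prod.snd_add, Pi.add_apply, add_smul]
    abel
  map_smul' c p := by
    funext i
    simp only [Prod.smul_fst, Prod.smul_snd, Pi.smul_apply, RingHom.id_apply, smul_add, smul_smul,
      smul_eq_mul]

theorem phi_apply {k : ℕ} (lam : Fin k → Fin 3 → ℂ) (p : (Fin 3 → ℂ) × (Fin k → ℂ)) (i : Fin k) :
    phi lam p i = p.1 + p.2 i • lam i := rfl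

theorem cr_zero_left (b : Fin 3 → ℂ) : cr 0 b = 0 := by
  funext i
  fin_cases i <;> simp [cr]

theorem cr_smul_left (c : ℂ) (a b : Fin 3 → ℂ) : cr (c • a) b = c • cr a b := by
  funext i
  fin_cases i <;> simp [cr] <;> ring

theorem cr_smul_self (c : ℂ) (a : Fin 3 → ℂ) : cr (c • a) a = 0 := by
  funext i
  fin_cases i <;> simp [cr] <;> ring

theorem lam_ne_zero {n : ℕ} (lam : Fin (n + 2) → Fin 3 → ℂ)
    (h : ∀ i j, i ≠ j → cr (lam i) (lam j) ≠ 0) (i : Fin (n + 2)) : lam i ≠ 0 := by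
  intro h0
  obtain ⟨j, hj⟩ := exists_ne i
  exact h i j hj.symm (by rw [h0]; exact cr_zero_left _)

theorem phi_injective {n : ℕ} (lam : Fin (n + 2) → Fin 3 → ℂ)
    (h : ∀ i j, i ≠ j → cr (lam i) (lam j) ≠ 0) : Function.Injective (phi lam) := by
  rw [← LinearMap.ker_eq_bot, LinearMap.ker_eq_bot']
  rintro ⟨ξ, c⟩ hp
  have hi : ∀ i, ξ + c i • lam i = 0 := fun i => by
    have := congrFun hp i
    rwa [phi_apply] at this
  have h01 : (0 : Fin (n + 2)) ≠ 1 := by
    intro hh
    have := congrArg Fin.val hh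
    simp at this
  have e1 : c 0 • lam 0 = c 1 • lam 1 := by
    have a0 := hi 0
    have a1 := hi 1
    exact add_left_cancel (a0.trans a1.symm)
  have hc0 : c 0 = 0 := by
    have e2 : c 0 • cr (lam 0) (lam 1) = 0 := by
      rw [← cr_smul_left, e1, cr_smul_self]
    exact (smul_eq_zero.1 e2).resolve_right (h 0 1 h01)
  have hξ : ξ = 0 := by
    have := hi 0
    rwa [hc0, zero_smul, add_zero] at this
  have hc : c = 0 := by
    funext i
    have := hi i
    rw [hξ, zero_add] at this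
    exact (smul_eq_zero.1 this).resolve_right (lam_ne_zero lam h i)
  rw [hξ, hc]
  rfl

theorem phi_range {n : ℕ} (lam : Fin (n + 2) → Fin 3 → ℂ) (hG : Gen lam) :
    LinearMap.range (phi lam) = ZV lam (∅ : Finset (Edge (n + 2))) := by
  obtain ⟨h, h3⟩ := hG
  apply le_antisymm
  · rintro _ ⟨⟨ξ, c⟩, rfl⟩ i j hij -
    rw [phi_apply, phi_apply]
    have e : (ξ + c i • lam i) - (ξ + c j • lam j) = c i • lam i - c j • lam j := by abel
    simp only [e, sub_dotProduct, smul_dotProduct, dot_cr_left, dot_cr_right, smul_zero, sub_zero]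
  · intro ζ hζ
    have hζ' : ∀ i j, i ≠ j → (ζ i - ζ j) ⬝ᵥ cr (lam i) (lam j) = 0 :=
      fun i j hij => hζ i j hij (by simp)
    have hj : ∀ j : Fin (n + 2), ∃ d c : ℂ, j ≠ 0 → ζ j - ζ 0 = d • lam 0 + c • lam j := by
      intro j
      by_cases hj0 : j = 0
      · exact ⟨0, 0, fun hh => absurd hj0 hh⟩
      · have e1 := hζ' 0 j (Ne.symm hj0)
        have e2 : (ζ j - ζ 0) ⬝ᵥ cr (lam 0) (lam j) = 0 := by
          have : ζ j - ζ 0 = -(ζ 0 - ζ j) := by abel
          rw [this, neg_dotProduct, e1, neg_zero]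
        obtain ⟨x, y, hxy⟩ := exists_comb _ _ _ (h 0 j (Ne.symm hj0)) e2
        exact ⟨x, y, fun _ => hxy⟩
    choose d c hdc using hj
    have hdd : ∀ i j : Fin (n + 2), i ≠ 0 → j ≠ 0 → d i = d j := by
      intro i j hi0 hj0
      by_cases hij : i = j
      · rw [hij]
      · have e1 := hζ' i j hij
        have e2 : ζ i - ζ j = (d i - d j) • lam 0 + (c i • lam i - c j • lam j) := by
          have : ζ i - ζ j = (ζ i - ζ 0) - (ζ j - ζ 0) := by abel
          rw [this, hdc i hi0, hdc j hj0, sub_smul]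
          abel
        rw [e2] at e1
        simp only [add_dotProduct, sub_dotProduct, smul_dotProduct, dot_cr_left, dot_cr_right,
          smul_zero, sub_zero, add_zero] at e1
        have e3 := (smul_eq_zero.1 e1).resolve_right (h3 0 i j (Ne.symm hi0) hij (Ne.symm hj0))
        exact sub_eq_zero.1 e3
    have h10 : (1 : Fin (n + 2)) ≠ 0 := by
      intro hh
      have := congrArg Fin.val hh
      simp at this
    refine ⟨(ζ 0 + d 1 • lam 0, fun i => if i = 0 then - d 1 else c i), ?_⟩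
    funext i
    rw [phi_apply]
    by_cases hi0 : i = 0
    · subst hi0
      simp only [if_true, neg_smul]
      abel
    · simp only [hi0, if_false]
      rw [hdd 1 i h10 hi0]
      have := hdc i hi0
      rw [add_assoc, ← this]
      abel

theorem BKER : BKER_stmt := by
  intro k hk lam hG
  obtain ⟨n, rfl⟩ : ∃ n, k = n + 2 := ⟨k - 2, by omega⟩
  rw [← phi_range lam hG, LinearMap.finrank_range_of_inj (phi_injective lam hG.1)]
  simp only [Module.finrank_prod, Module.finrank_fin_fun]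
  omega

end Pool.Agent.Helper85.DS
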